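import Pool.Agent.U624.KT.Stm

/-!
# Package GN of project KT: geometry of numbers in dimension 16 (Blichfeldt)
-/

set_option autoImplicit false

namespace Pool.Agent.U171.KT

open Matrix MeasureTheory
open scoped Pointwise

/-- few points in a ball: `k` points in the ball of radius `r`, `r² = 16/9`, at mutual distances at least `2` -/
theorem few {ι : Type} [Fintype ι] (s : Finset (ι → ℝ)) (h1 : ∀ x ∈ s, ∑ i, x i ^ 2 ≤ 16 / 9)
    (h2 : ∀ x ∈ s, ∀ y ∈ s, x ≠ y → 4 ≤ ∑ i, (x i - y i) ^ 2) : s.card ≤ 9 := by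
  classical
  by_contra hc
  push Not at hc
  obtain ⟨k, hk⟩ : ∃ k : ℝ, k = s.card := ⟨_, rfl⟩
  have hk10 : (10 : ℝ) ≤ k := by rw [hk]; exact_mod_cast hc
  have e1 : ∑ x ∈ s, ∑ y ∈ s, ∑ i, (x i - y i) ^ 2 ≤ 2 * k * ∑ x ∈ s, ∑ i, x i ^ 2 := by
    have : ∑ x ∈ s, ∑ y ∈ s, ∑ i, (x i - y i) ^ 2 =
        2 * k * (∑ x ∈ s, ∑ i, x i ^ 2) - 2 * ∑ i, (∑ x ∈ s, x i) ^ 2 := by
      have h : ∀ x ∈ s, ∀ y ∈ s, ∑ i, (x i - y i) ^ 2 =
          (∑ i, x i ^ 2) + (∑ i, y i ^ 2) - 2 * ∑ i, x i * y i := by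
        intro x _ y _
        rw [← Finset.sum_add_distrib, Finset.mul_sum, ← Finset.sum_sub_distrib]
        exact Finset.sum_congr rfl fun i _ => by ring
      rw [Finset.sum_congr rfl fun x hx => Finset.sum_congr rfl fun y hy => h x hx y hy]
      simp only [Finset.sum_sub_distrib, Finset.sum_add_distrib, Finset.sum_const, nsmul_eq_mul,
        ← Finset.mul_sum]
      have h3 : ∑ x ∈ s, ∑ y ∈ s, ∑ i, x i * y i = ∑ i, (∑ x ∈ s, x i) ^ 2 := by
        rw [Finset.sum_congr rfl fun x _ => Finset.sum_comm, Finset.sum_comm]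
        refine Finset.sum_congr rfl fun i _ => ?_
        rw [sq, Finset.sum_mul_sum]
      rw [h3]
      rw [← hk]
      ring
    rw [this]
    have : 0 ≤ ∑ i, (∑ x ∈ s, x i) ^ 2 := Finset.sum_nonneg fun i _ => sq_nonneg _
    linarith
  have e2 : ∑ x ∈ s, ∑ i, x i ^ 2 ≤ k * (16 / 9) := by
    calc ∑ x ∈ s, ∑ i, x i ^ 2 ≤ ∑ x ∈ s, (16 / 9 : ℝ) := Finset.sum_le_sum h1
      _ = k * (16 / 9) := by rw [Finset.sum_const, nsmul_eq_mul, hk]
  have e3 : k * (k - 1) * 4 ≤ ∑ x ∈ s, ∑ y ∈ s, ∑ i, (x i - y i) ^ 2 := by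
    have h : ∀ x ∈ s, (k - 1) * 4 ≤ ∑ y ∈ s, ∑ i, (x i - y i) ^ 2 := by
      intro x hx
      rw [← Finset.add_sum_erase _ _ hx]
      have h0 : ∑ i, (x i - x i) ^ 2 = 0 := by simp
      rw [h0, zero_add]
      have hcard : ((s.erase x).card : ℝ) = k - 1 := by
        rw [Finset.card_erase_of_mem hx, Nat.cast_sub (by omega), Nat.cast_one, hk]
      calc (k - 1) * 4 = ∑ y ∈ s.erase x, (4 : ℝ) := by
            rw [Finset.sum_const, nsmul_eq_mul, hcard]
        _ ≤ _ := Finset.sum_le_sum fun y hy =>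
            h2 x hx y (Finset.mem_of_mem_erase hy) (Finset.ne_of_mem_erase hy).symm
    calc k * (k - 1) * 4 = ∑ x ∈ s, (k - 1) * 4 := by
          rw [Finset.sum_const, nsmul_eq_mul, hk]; ring
      _ ≤ _ := Finset.sum_le_sum h
  nlinarith [mul_le_mul_of_nonneg_left e2 (by linarith : (0 : ℝ) ≤ 2 * k)]

/-- the ball of radius `4/3` -/
def S : Set (Fin 16 → ℝ) := {x | ∑ i, x i ^ 2 ≤ 16 / 9}

theorem volS : (9 : ENNReal) < volume S := by
  have h : S = (WithLp.toLp 2) ⁻¹' (Metric.closedBall (0 : EuclideanSpace ℝ (Fin 16)) (4 / 3)) := by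
    ext x
    simp only [S, Set.mem_ofPred_eq, Set.mem_preimage, mem_closedBall_zero_iff, EuclideanSpace.norm_eq,
      Real.norm_eq_abs, sq_abs]
    rw [Real.sqrt_le_left (by norm_num)]
    norm_num
  rw [h, (PiLp.volume_preserving_toLp (Fin 16)).measure_preimage
      Metric.isClosed_closedBall.measurableSet.nullMeasurableSet, EuclideanSpace.volume_closedBall,
    Fintype.card_fin, ← ENNReal.ofReal_pow (by norm_num), ← ENNReal.ofReal_mul (by positivity)]
  have h9 : (9 : ENNReal) = ENNReal.ofReal 9 := by norm_num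
  rw [h9, ENNReal.ofReal_lt_ofReal_iff_of_nonneg (by norm_num)]
  have hg : Real.Gamma (((16 : ℕ) : ℝ) / 2 + 1) = 40320 := by
    have : ((16 : ℕ) : ℝ) / 2 + 1 = ((8 : ℕ) : ℝ) + 1 := by norm_num
    rw [this, Real.Gamma_nat_eq_factorial]
    norm_num [Nat.factorial]
  have hp : √Real.pi ^ 16 = Real.pi ^ 8 := by
    rw [show (16 : ℕ) = 2 * 8 by norm_num, pow_mul, Real.sq_sqrt Real.pi_pos.le]
  rw [hg, hp]
  have h3 : (3 : ℝ) ^ 8 ≤ Real.pi ^ 8 := by
    gcongr
    exact Real.pi_gt_three.le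
  have : (9 : ℝ) < (4 / 3) ^ 16 * ((3 : ℝ) ^ 8 / 40320) := by norm_num
  calc (9 : ℝ) < (4 / 3) ^ 16 * ((3 : ℝ) ^ 8 / 40320) := this
    _ ≤ _ := by gcongr

theorem measS : MeasurableSet S := by
  refine IsClosed.measurableSet ?_
  exact isClosed_le (by fun_prop) continuous_const

open scoped MatrixOrder in
theorem exists_root (G : Matrix (Fin 16) (Fin 16) ℝ) (hG : G.PosDef) :
    ∃ B : Matrix (Fin 16) (Fin 16) ℝ, G = Bᵀ * B := by
  obtain ⟨B, hB⟩ := CStarAlgebra.nonneg_iff_eq_star_mul_self.mp hG.posSemidef.nonneg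
  refine ⟨B, ?_⟩
  rw [hB, star_eq_conjTranspose, conjTranspose_eq_transpose_of_trivial]

theorem quad (B : Matrix (Fin 16) (Fin 16) ℝ) (v : Fin 16 → ℝ) :
    v ⬝ᵥ ((Bᵀ * B).mulVec v) = ∑ i, (B.mulVec v) i ^ 2 := by
  rw [← mulVec_mulVec, dotProduct_mulVec, vecMul_transpose]
  simp only [dotProduct, sq]

theorem t_GN : Pool.Agent.U624.KT.S_GN := by
  intro G hG hdet
  obtain ⟨B, rfl⟩ := exists_root G hG
  by_contra hno
  push Not at hno
  have hdB : |B.det| = 1 := by
    rw [det_mul, det_transpose] at hdet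
    have : |B.det| * |B.det| = 1 := by rw [← abs_mul, hdet, abs_one]
    nlinarith [abs_nonneg B.det]
  have hu : IsUnit B.det := by
    rw [isUnit_iff_ne_zero]
    intro h
    rw [h, abs_zero] at hdB
    exact zero_ne_one hdB
  let b : Module.Basis (Fin 16) ℝ (Fin 16 → ℝ) :=
    (Pi.basisFun ℝ (Fin 16)).map (Matrix.toLinearEquiv' B (Matrix.invertibleOfIsUnitDet B hu))
  have hb : ∀ i j, b i j = B j i := by
    intro i j
    have : b i = (Matrix.toLin' B) (Pi.single i 1) := by
      simp only [b, Module.Basis.map_apply, Pi.basisFun_apply]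
      rfl
    rw [this]
    simp
  have hvol : volume (ZSpan.fundamentalDomain b) = 1 := by
    rw [ZSpan.volume_fundamentalDomain]
    have : Matrix.of b = Bᵀ := by
      ext i j
      exact hb i j
    rw [this, det_transpose, hdB, ENNReal.ofReal_one]
  -- lattice points
  have hL : ∀ g ∈ Submodule.span ℤ (Set.range b), g ≠ 0 → 4 ≤ ∑ i, g i ^ 2 := by
    intro g hg hg0
    rw [Submodule.mem_span_range_iff_exists_fun] at hg
    obtain ⟨z, rfl⟩ := hg
    have hz : (∑ i, z i • b i) = B.mulVec fun i => (z i : ℝ) := by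
      ext j
      rw [Finset.sum_apply, mulVec, dotProduct]
      refine Finset.sum_congr rfl fun i _ => ?_
      rw [Pi.smul_apply, hb, zsmul_eq_mul, mul_comm]
    rw [hz, ← quad]
    refine hno z ?_
    rintro rfl
    apply hg0
    simp
  have hcount : ∀ x : Fin 16 → ℝ, ∀ t : Finset (Submodule.span ℤ (Set.range b)).toAddSubgroup,
      (∀ g ∈ t, x ∈ g +ᵥ S) → t.card ≤ 9 := by
    intro x t ht
    classical
    have hinj : Function.Injective (fun g : (Submodule.span ℤ (Set.range b)).toAddSubgroup => x - (g : Fin 16 → ℝ)) := by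
      intro g h hgh
      exact Subtype.ext (sub_right_injective hgh)
    rw [← Finset.card_image_of_injective t hinj]
    refine few _ ?_ ?_
    · intro y hy
      rw [Finset.mem_image] at hy
      obtain ⟨g, hg, rfl⟩ := hy
      have := ht g hg
      rw [Set.mem_vadd_set_iff_neg_vadd_mem] at this
      have h2 : x - (g : Fin 16 → ℝ) = -g +ᵥ x := by
        rw [AddSubgroup.vadd_def, vadd_eq_add, NegMemClass.coe_neg, neg_add_eq_sub]
      rw [h2]
      exact this
    · intro y hy y' hy' hne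
      rw [Finset.mem_image] at hy hy'
      obtain ⟨g, hg, rfl⟩ := hy
      obtain ⟨g', hg', rfl⟩ := hy'
      have := hL (g' - g : Fin 16 → ℝ) (Submodule.sub_mem _ g'.2 g.2) (by
        intro h
        apply hne
        rw [sub_eq_zero] at h
        simp only [h])
      refine this.trans (le_of_eq (Finset.sum_congr rfl fun i _ => ?_))
      simp only [Pi.sub_apply]
      ring
  have hcnt : Countable (Submodule.span ℤ (Set.range b)).toAddSubgroup :=
    inferInstanceAs (Countable (Submodule.span ℤ (Set.range b)))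
  have hmain : volume S ≤ 9 := by
    have h1 := (ZSpan.isAddFundamentalDomain' b (volume : Measure (Fin 16 → ℝ))).measure_eq_tsum S
    rw [h1]
    have hm : ∀ g : (Submodule.span ℤ (Set.range b)).toAddSubgroup, MeasurableSet (g +ᵥ S) :=
      fun g => measS.const_vadd g
    have h2 : ∀ g : (Submodule.span ℤ (Set.range b)).toAddSubgroup,
        volume ((g +ᵥ S) ∩ ZSpan.fundamentalDomain b) =
          ∫⁻ x in ZSpan.fundamentalDomain b, (g +ᵥ S).indicator 1 x := by
      intro g
      rw [lintegral_indicator_one (hm g), Measure.restrict_apply (hm g)]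
    rw [tsum_congr h2, ← lintegral_tsum fun g => (measurable_one.indicator (hm g)).aemeasurable]
    calc ∫⁻ x in ZSpan.fundamentalDomain b,
          ∑' g : (Submodule.span ℤ (Set.range b)).toAddSubgroup, (g +ᵥ S).indicator (1 : (Fin 16 → ℝ) → ENNReal) x
        ≤ ∫⁻ x in ZSpan.fundamentalDomain b, 9 := by
          refine lintegral_mono fun x => ?_
          refine ENNReal.summable.tsum_le_of_sum_le fun t => ?_
          classical
          have h3 : ∑ g ∈ t, (g +ᵥ S).indicator (1 : (Fin 16 → ℝ) → ENNReal) x =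
              ((t.filter fun g => x ∈ g +ᵥ S).card : ENNReal) := by
            rw [Finset.card_filter]
            push_cast
            refine Finset.sum_congr rfl fun g _ => ?_
            rw [Set.indicator_apply]
            split_ifs <;> simp
          rw [h3]
          have h4 : (t.filter fun g => x ∈ g +ᵥ S).card ≤ 9 :=
            hcount x _ fun g hg => (Finset.mem_filter.1 hg).2
          exact_mod_cast h4
      _ = 9 := by
          rw [setLIntegral_const, hvol, mul_one]
  exact absurd volS (not_lt.2 hmain)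



end Pool.Agent.U171.KT
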